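import Mathlib

set_option autoImplicit false

namespace Pool.Agent.Results.MP_eff1f1_co.Disproof

/-- A simplicial complex on `[n]`: a family of subsets closed under taking subsets. -/
def IsComplex {n : ℕ} (Γ : Finset (Finset (Fin n))) : Prop :=
  ∀ F ∈ Γ, ∀ G : Finset (Fin n), G ⊆ F → G ∈ Γ

/-- The complex `⟨[n]⟩^{[d-1]}` of all subsets of `[n]` with at most `d` elements. -/
def skeleton (n d : ℕ) : Finset (Finset (Fin n)) :=
  Finset.univ.filter (fun F => F.card ≤ d)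

/-- The `d`-closure `Δ_d(Γ)`: all subsets with at most `d` elements, and those larger `F` all of
whose `(d+1)`-element subsets lie in `Γ`. -/
def dClosure {n : ℕ} (d : ℕ) (Γ : Finset (Finset (Fin n))) : Finset (Finset (Fin n)) :=
  Finset.univ.filter (fun F => F.card ≤ d ∨ ∀ G ∈ F.powersetCard (d + 1), G ∈ Γ)

/-- `Γ` is a simplicial complex which is a `d`-closure. -/
def IsDClosure {n : ℕ} (d : ℕ) (Γ : Finset (Finset (Fin n))) : Prop :=
  IsComplex Γ ∧ Γ = dClosure d Γ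

/-- Facets are the inclusion-maximal faces. -/
def IsFacet {n : ℕ} (Γ : Finset (Finset (Fin n))) (F : Finset (Fin n)) : Prop :=
  F ∈ Γ ∧ ∀ G ∈ Γ, F ⊆ G → G = F

/-- A face is free if it lies in exactly one facet. -/
def IsFree {n : ℕ} (Γ : Finset (Finset (Fin n))) (E : Finset (Fin n)) : Prop :=
  E ∈ Γ ∧ ∃! F, IsFacet Γ F ∧ E ⊆ F

/-- A simplicial face: a free face of dimension `d - 1`, that is, with `d` elements. -/
def IsSimplicial {n : ℕ} (d : ℕ) (Γ : Finset (Finset (Fin n))) (E : Finset (Fin n)) : Prop :=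
  IsFree Γ E ∧ E.card = d

/-- `Γ⟨E⟩`: remove every face that strictly contains `E`. -/
def deletion {n : ℕ} (Γ : Finset (Finset (Fin n))) (E : Finset (Fin n)) :
    Finset (Finset (Fin n)) :=
  Γ.filter (fun F => ¬ E ⊂ F)

/-- `Γ` equals `⟨[n]⟩^{[d-1]}` or admits a simplicial order `E_1, …, E_t`: each `E_i` is
simplicial and not a facet in `Γ⟨E_1⟩⋯⟨E_{i-1}⟩`, and `Γ⟨E_1⟩⋯⟨E_t⟩ = ⟨[n]⟩^{[d-1]}`. -/
inductive HasSimplicialOrder {n : ℕ} (d : ℕ) : Finset (Finset (Fin n)) → Prop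
  | done : HasSimplicialOrder d (skeleton n d)
  | step (Γ : Finset (Finset (Fin n))) (E : Finset (Fin n)) (hE : IsSimplicial d Γ E)
      (hnf : ¬ IsFacet Γ E) (h : HasSimplicialOrder d (deletion Γ E)) : HasSimplicialOrder d Γ

/-- `d`-chordal `d`-closures. -/
def IsChordal {n : ℕ} (d : ℕ) (Γ : Finset (Finset (Fin n))) : Prop :=
  IsDClosure d Γ ∧ HasSimplicialOrder d Γ

section general

variable {n d : ℕ} {H : Finset (Finset (Fin n))} {E C F : Finset (Fin n)}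

lemma mem_cl : F ∈ dClosure d H ↔ F.card ≤ d ∨ ∀ G ∈ F.powersetCard (d + 1), G ∈ H := by
  simp [dClosure]

lemma mem_cl' : F ∈ dClosure d H ↔ ∀ G ∈ F.powersetCard (d + 1), G ∈ H := by
  rw [mem_cl]
  constructor
  · rintro (h | h)
    · intro G hG
      rw [Finset.mem_powersetCard] at hG
      have := Finset.card_le_card hG.1
      omega
    · exact h
  · exact Or.inr

lemma isDClosure_cl (d : ℕ) (H : Finset (Finset (Fin n))) : IsDClosure d (dClosure d H) := by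
  constructor
  · intro F hF G hG
    rw [mem_cl'] at hF ⊢
    exact fun K hK => hF K (Finset.powersetCard_mono hG hK)
  · ext F
    rw [mem_cl' (H := dClosure d H)]
    constructor
    · intro hF G hG
      rw [mem_cl'] at hF ⊢
      intro K hK
      apply hF
      rw [Finset.mem_powersetCard] at hG hK ⊢
      exact ⟨hK.1.trans hG.1, hK.2⟩
    · intro hF
      rw [mem_cl']
      intro G hG
      have h1 := hF G hG
      rw [mem_cl'] at h1
      rw [Finset.mem_powersetCard] at hG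
      exact h1 G (by rw [Finset.mem_powersetCard]; exact ⟨subset_rfl, hG.2⟩)

lemma insert_mem_powersetCard (hE : E.card = d) {v : Fin n} (hEF : E ⊆ F) (hv : v ∈ F)
    (hvE : v ∉ E) : insert v E ∈ F.powersetCard (d + 1) := by
  rw [Finset.mem_powersetCard]
  refine ⟨Finset.insert_subset hv hEF, ?_⟩
  rw [Finset.card_insert_of_notMem hvE, hE]

lemma exists_facet {Γ : Finset (Finset (Fin n))} (hF : F ∈ Γ) : ∃ M, IsFacet Γ M ∧ F ⊆ M := by
  classical
  obtain ⟨M, hM, hmax⟩ := Finset.exists_max_image (Γ.filter (fun G => F ⊆ G)) Finset.card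
    ⟨F, Finset.mem_filter.mpr ⟨hF, subset_rfl⟩⟩
  rw [Finset.mem_filter] at hM
  refine ⟨M, ⟨hM.1, fun G hG hMG => ?_⟩, hM.2⟩
  have := hmax G (Finset.mem_filter.mpr ⟨hG, hM.2.trans hMG⟩)
  exact (Finset.eq_of_subset_of_card_le hMG this).symm

/-- one deletion step in terms of the `(d+1)`-sets -/
lemma step (hE : E.card = d) (hEC : E ⊆ C) (hne : E ≠ C)
    (hC : ∀ G ∈ C.powersetCard (d + 1), G ∈ H) (hlink : ∀ τ ∈ H, E ⊆ τ → τ ⊆ C) :
    IsSimplicial d (dClosure d H) E ∧ ¬ IsFacet (dClosure d H) E ∧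
      deletion (dClosure d H) E = dClosure d (H.filter (fun τ => ¬ E ⊆ τ)) := by
  have hCm : C ∈ dClosure d H := mem_cl'.mpr hC
  have hsub : ∀ F ∈ dClosure d H, E ⊆ F → F ⊆ C := by
    intro F hF hEF v hv
    by_cases hvE : v ∈ E
    · exact hEC hvE
    · have h1 := mem_cl'.mp hF _ (insert_mem_powersetCard hE hEF hv hvE)
      exact hlink _ h1 (Finset.subset_insert v E) (Finset.mem_insert_self v E)
  refine ⟨⟨⟨mem_cl.mpr (Or.inl hE.le), C, ⟨⟨hCm, fun G hG hCG => ?_⟩, hEC⟩, ?_⟩, hE⟩, ?_, ?_⟩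
  · exact Finset.Subset.antisymm (hsub G hG (hEC.trans hCG)) hCG
  · rintro F ⟨hF, hEF⟩
    exact (hF.2 C hCm (hsub F hF.1 hEF)).symm
  · intro hfac
    exact hne (hfac.2 C hCm hEC).symm
  · ext F
    unfold deletion
    rw [Finset.mem_filter]
    constructor
    · rintro ⟨hF, hEF⟩
      rw [mem_cl'] at hF ⊢
      intro G hG
      rw [Finset.mem_filter]
      refine ⟨hF G hG, fun hEG => hEF ?_⟩
      rw [Finset.mem_powersetCard] at hG
      refine Finset.ssubset_iff_subset_ne.mpr ⟨hEG.trans hG.1, fun e => ?_⟩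
      subst e
      have := Finset.card_le_card hG.1
      omega
    · intro hF
      rw [mem_cl'] at hF
      refine ⟨mem_cl'.mpr fun G hG => (Finset.mem_filter.mp (hF G hG)).1, fun hEF => ?_⟩
      obtain ⟨v, hv, hvE⟩ := Finset.exists_of_ssubset hEF
      have := hF _ (insert_mem_powersetCard hE hEF.1 hv hvE)
      exact (Finset.mem_filter.mp this).2 (Finset.subset_insert v E)

lemma cl_empty (n d : ℕ) : dClosure d (∅ : Finset (Finset (Fin n))) = skeleton n d := by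
  ext F
  rw [mem_cl]
  unfold skeleton
  rw [Finset.mem_filter]
  constructor
  · rintro (h | h)
    · exact ⟨Finset.mem_univ _, h⟩
    · refine ⟨Finset.mem_univ _, ?_⟩
      by_contra hcon
      obtain ⟨G, hG⟩ := Finset.powersetCard_nonempty.mpr (show d + 1 ≤ F.card by omega)
      exact absurd (h G hG) (Finset.notMem_empty G)
  · exact fun h => Or.inl h.2

/-- a criterion for a `d`-closure to be stuck -/
lemma not_chordal_of_stuck (hcard : ∀ τ ∈ H, τ.card = d + 1) (hne : H.Nonempty)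
    (hst : ∀ τ ∈ H, ∀ E ∈ τ.powersetCard d, ∃ τ' ∈ H, E ⊆ τ' ∧
      ∃ G ∈ (τ ∪ τ').powersetCard (d + 1), G ∉ H) :
    ¬ IsChordal d (dClosure d H) := by
  rintro ⟨_, hl⟩
  generalize hG : dClosure d H = Γ at hl
  cases hl with
  | done =>
    obtain ⟨τ, hτ⟩ := hne
    have h1 : τ ∈ dClosure d H := by
      rw [mem_cl']
      intro G hG
      rw [Finset.mem_powersetCard] at hG
      rw [Finset.eq_of_subset_of_card_le hG.1 (by rw [hG.2, hcard τ hτ])]
      exact hτ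
    rw [hG] at h1
    unfold skeleton at h1
    have := (Finset.mem_filter.mp h1).2
    have := hcard τ hτ
    omega
  | step _ E hsimp hnf _ =>
    subst hG
    obtain ⟨⟨hEm, C, hC, huniq⟩, hE⟩ := hsimp
    have hmem : ∀ τ ∈ H, τ ∈ dClosure d H := by
      intro τ hτ
      rw [mem_cl']
      intro G hG
      rw [Finset.mem_powersetCard] at hG
      rw [Finset.eq_of_subset_of_card_le hG.1 (by rw [hG.2, hcard τ hτ])]
      exact hτ
    have hin : ∀ τ ∈ H, E ⊆ τ → τ ⊆ C := by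
      intro τ hτ hEτ
      obtain ⟨M, hM, hτM⟩ := exists_facet (hmem τ hτ)
      rw [← huniq M ⟨hM, hEτ.trans hτM⟩]
      exact hτM
    have hEC : E ≠ C := by
      intro e
      exact hnf (e ▸ hC.1)
    obtain ⟨v, hv, hvE⟩ := Finset.exists_of_ssubset (Finset.ssubset_iff_subset_ne.mpr ⟨hC.2, hEC⟩)
    have hτ := mem_cl'.mp hC.1.1 _ (insert_mem_powersetCard hE hC.2 hv hvE)
    obtain ⟨τ', hτ', hEτ', G, hG, hGH⟩ := hst _ hτ E
      (by rw [Finset.mem_powersetCard]; exact ⟨Finset.subset_insert v E, hE⟩)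
    have hsub : insert v E ∪ τ' ⊆ C :=
      Finset.union_subset (hin _ hτ (Finset.subset_insert v E)) (hin _ hτ' hEτ')
    exact hGH (mem_cl'.mp hC.1.1 G (Finset.powersetCard_mono hsub hG))

end general

/-- checker for simplicial orders, acting on the list of `(d+1)`-sets; the second entry of each
pair is the unique facet containing the first -/
def chk {n : ℕ} (d : ℕ) : List (Finset (Fin n)) → List (Finset (Fin n) × Finset (Fin n)) → Bool
  | H, [] => H.isEmpty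
  | H, (E, C) :: l =>
    decide (E.card = d) && decide (E ⊆ C) && decide (E ≠ C) &&
    decide (∀ G ∈ C.powersetCard (d + 1), G ∈ H) && decide (∀ τ ∈ H, E ⊆ τ → τ ⊆ C) &&
    chk d (H.filter (fun τ => decide (¬ E ⊆ τ))) l

lemma order_of_chk {n d : ℕ} (l : List (Finset (Fin n) × Finset (Fin n))) :
    ∀ H : List (Finset (Fin n)), chk d H l = true →
      HasSimplicialOrder d (dClosure d H.toFinset) := by
  induction l with
  | nil =>
    intro H h
    have : H = [] := by simpa [chk] using h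
    subst this
    rw [List.toFinset_nil, cl_empty]
    exact HasSimplicialOrder.done
  | cons p l ih =>
    obtain ⟨E, C⟩ := p
    intro H h
    simp only [chk, Bool.and_eq_true, decide_eq_true_eq] at h
    obtain ⟨⟨⟨⟨⟨h1, h2⟩, h3⟩, h4⟩, h5⟩, h6⟩ := h
    obtain ⟨s1, s2, s3⟩ := step (H := H.toFinset) h1 h2 h3
      (fun G hG => List.mem_toFinset.mpr (h4 G hG)) (fun τ hτ => h5 τ (List.mem_toFinset.mp hτ))
    refine HasSimplicialOrder.step _ E s1 s2 ?_
    have := ih _ h6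
    rw [List.toFinset_filter] at this
    simp only [decide_eq_true_eq] at this
    rw [s3]
    exact this

/-- the `4`-sets of the counterexample (`d = 3`, `n = 8`) -/
def H0 : List (Finset (Fin 8)) :=
  [{0, 1, 2, 3}, {0, 1, 2, 4}, {0, 1, 3, 4}, {0, 2, 3, 4}, {1, 2, 3, 4},
   {0, 1, 3, 7}, {0, 1, 4, 6}, {0, 1, 6, 7}, {0, 2, 3, 6}, {0, 2, 5, 6}, {0, 2, 5, 7},
   {0, 2, 6, 7}, {0, 3, 4, 5}, {0, 3, 5, 6}, {0, 3, 5, 7}, {0, 4, 5, 6}, {1, 2, 3, 5},
   {1, 2, 4, 6}, {1, 2, 5, 6}, {1, 3, 5, 6}, {1, 3, 6, 7}, {2, 3, 4, 5}, {2, 3, 5, 7},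
   {2, 3, 6, 7}, {2, 4, 5, 6}]

/-- the order of deletions -/
def ord0 : List (Finset (Fin 8) × Finset (Fin 8)) :=
  [({0, 2, 4}, {0, 1, 2, 3, 4}), ({0, 1, 2}, {0, 1, 2, 3}), ({0, 2, 3}, {0, 2, 3, 6}),
   ({0, 3, 6}, {0, 3, 5, 6}), ({3, 5, 6}, {1, 3, 5, 6}), ({1, 3, 5}, {1, 2, 3, 5}),
   ({1, 3, 6}, {1, 3, 6, 7}), ({3, 6, 7}, {2, 3, 6, 7}), ({1, 2, 5}, {1, 2, 5, 6}),
   ({2, 3, 7}, {2, 3, 5, 7}), ({1, 6, 7}, {0, 1, 6, 7}), ({0, 1, 6}, {0, 1, 4, 6}),
   ({1, 2, 6}, {1, 2, 4, 6}), ({2, 5, 7}, {0, 2, 5, 7}), ({2, 3, 5}, {2, 3, 4, 5}),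
   ({2, 4, 6}, {2, 4, 5, 6}), ({0, 1, 4}, {0, 1, 3, 4}), ({1, 2, 4}, {1, 2, 3, 4}),
   ({0, 1, 7}, {0, 1, 3, 7}), ({0, 5, 7}, {0, 3, 5, 7}), ({0, 2, 7}, {0, 2, 6, 7}),
   ({2, 5, 6}, {0, 2, 5, 6}), ({0, 4, 6}, {0, 4, 5, 6}), ({0, 3, 5}, {0, 3, 4, 5})]

lemma chk0 : chk 3 H0 ord0 = true := by decide +kernel

/-- the `4`-sets after the bad deletion -/
def H1 : List (Finset (Fin 8)) := H0.filter (fun τ => decide (¬ ({1, 3, 4} : Finset (Fin 8)) ⊆ τ))

lemma H1_card : ∀ τ ∈ H1, τ.card = 3 + 1 := by decide +kernel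

lemma H1_stuck : ∀ τ ∈ H1, ∀ E ∈ τ.powersetCard 3, ∃ τ' ∈ H1, E ⊆ τ' ∧
    ∃ G ∈ (τ ∪ τ').powersetCard (3 + 1), G ∉ H1 := by decide +kernel

/-- Q1 is false (`d = 3`, `n = 8`): simplicial deletion need not preserve `d`-chordality. -/
theorem result : ∃ (Γ : Finset (Finset (Fin 8))) (E : Finset (Fin 8)),
    IsChordal 3 Γ ∧ IsSimplicial 3 Γ E ∧ ¬ IsChordal 3 (deletion Γ E) := by
  have hch : IsChordal 3 (dClosure 3 H0.toFinset) :=
    ⟨isDClosure_cl 3 _, order_of_chk ord0 H0 chk0⟩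
  obtain ⟨s1, _, s3⟩ := step (d := 3) (H := H0.toFinset) (E := {1, 3, 4}) (C := {0, 1, 2, 3, 4})
    (by decide) (by decide) (by decide)
    (fun G hG => List.mem_toFinset.mpr
      ((by decide +kernel : ∀ G ∈ ({0, 1, 2, 3, 4} : Finset (Fin 8)).powersetCard (3 + 1),
        G ∈ H0) G hG))
    (fun τ hτ => (by decide +kernel :
      ∀ τ ∈ H0, ({1, 3, 4} : Finset (Fin 8)) ⊆ τ → τ ⊆ {0, 1, 2, 3, 4}) τ (List.mem_toFinset.mp hτ))
  refine ⟨_, _, hch, s1, ?_⟩
  rw [s3]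
  have h3 : (H0.toFinset.filter (fun τ => ¬ ({1, 3, 4} : Finset (Fin 8)) ⊆ τ)) =
      H1.toFinset := by
    unfold H1
    rw [List.toFinset_filter]
    simp only [decide_eq_true_eq]
  rw [h3]
  refine not_chordal_of_stuck ?_ ?_ ?_
  · intro τ hτ
    exact H1_card τ (List.mem_toFinset.mp hτ)
  · exact ⟨{0, 1, 2, 3}, List.mem_toFinset.mpr (by decide +kernel)⟩
  · intro τ hτ E hE
    obtain ⟨τ', h4, h5, G, h6, h7⟩ := H1_stuck τ (List.mem_toFinset.mp hτ) E hE
    exact ⟨τ', List.mem_toFinset.mpr h4, h5, G, h6, fun h8 => h7 (List.mem_toFinset.mp h8)⟩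

end Pool.Agent.Results.MP_eff1f1_co.Disproof
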